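import Pool.Agent.helper3.XT.Spec

set_option autoImplicit false

namespace Pool.Agent.XT

open Finset SimpleGraph

open Classical in
/-- All `2`-paths between different points. -/
noncomputable def CLE_T {n : ℕ} (B : FS n) : Finset (Fin n × Fin n × Fin n) :=
  Finset.univ.filter (fun e => e.1 ≠ e.2.2 ∧ (e.1, e.2.1) ∈ B ∧ (e.2.2, e.2.1) ∈ B)

open Classical in
/-- The `2`-paths which are not good. -/
noncomputable def CLE_N {n : ℕ} (B : FS n) : Finset (Fin n × Fin n × Fin n) :=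
  (CLE_T B).filter (fun e => ¬ Good B e.1 e.2.1 e.2.2)

lemma CLE_memT {n : ℕ} (B : FS n) (x l y : Fin n) :
    (x, l, y) ∈ CLE_T B ↔ x ≠ y ∧ (x, l) ∈ B ∧ (y, l) ∈ B := by
  simp [CLE_T]

lemma CLE_memN {n : ℕ} (B : FS n) (x l y : Fin n) :
    (x, l, y) ∈ CLE_N B ↔ (x ≠ y ∧ (x, l) ∈ B ∧ (y, l) ∈ B) ∧ ¬ Good B x l y := by
  simp [CLE_N, CLE_memT]

lemma CLE_card_T {n : ℕ} (B : FS n) (κ D : ℝ) (hB : Host κ D B) :
    (B.card : ℝ) * (κ * D - 1) ≤ ((CLE_T B).card : ℝ) := by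
  classical
  have h1 : (CLE_T B).card =
      ∑ b ∈ B, ((CLE_T B).filter (fun e => (e.1, e.2.1) = b)).card := by
    apply Finset.card_eq_sum_card_fiberwise
    rintro ⟨x, l, y⟩ he
    have he' := (CLE_memT B x l y).1 (Finset.mem_coe.1 he)
    exact Finset.mem_coe.2 he'.2.1
  rw [h1]
  push_cast
  rw [← nsmul_eq_mul]
  apply Finset.card_nsmul_le_sum
  rintro ⟨x, l⟩ hb
  have hx : x ∈ dL B l := by simp [dL, hb]
  have h2 : ((dL B l).erase x).card ≤
      ((CLE_T B).filter (fun e => (e.1, e.2.1) = (x, l))).card := by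
    apply Finset.card_le_card_of_injOn (fun y => (x, l, y))
    · intro y hy
      have hy' := Finset.mem_erase.1 (Finset.mem_coe.1 hy)
      have hy2 : (y, l) ∈ B := by
        have := hy'.2
        simpa [dL] using this
      apply Finset.mem_coe.2
      rw [Finset.mem_filter, CLE_memT]
      exact ⟨⟨fun h => hy'.1 h.symm, hb, hy2⟩, rfl⟩
    · intro y _ y' _ h
      simpa using h
  have h3 : ((dL B l).erase x).card = (dL B l).card - 1 := Finset.card_erase_of_mem hx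
  have h4 := hB.ll x l hb
  have h5 : (dL B l).card ≤
      ((CLE_T B).filter (fun e => (e.1, e.2.1) = (x, l))).card + 1 := by omega
  have h6 : ((dL B l).card : ℝ) ≤
      (((CLE_T B).filter (fun e => (e.1, e.2.1) = (x, l))).card : ℝ) + 1 := by
    exact_mod_cast h5
  linarith

lemma CLE_card_N {n : ℕ} (B : FS n) : (CLE_T B).card ≤ (CLE_N B).card + (GoodS B).card := by
  classical
  have h : CLE_T B ⊆ CLE_N B ∪ GoodS B := by
    rintro ⟨x, l, y⟩ he
    have he' := (CLE_memT B x l y).1 he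
    by_cases hg : Good B x l y
    · exact Finset.mem_union_right _ (by simp [GoodS, hg])
    · exact Finset.mem_union_left _ ((CLE_memN B x l y).2 ⟨he', hg⟩)
  exact le_trans (Finset.card_le_card h) (Finset.card_union_le _ _)

lemma CLE_good_symm (hGAD : GAD_stmt) {n : ℕ} (B : FS n) (x l y : Fin n) (h : Good B x l y) :
    Good B y l x := by
  obtain ⟨h1, h2, h3, W, hW, hG, hD⟩ := h
  exact ⟨h1.symm, h3, h2, W, hW, fun S hS => ⟨(hGAD n B x y S (hG S hS).1).1, (hG S hS).2⟩, hD⟩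

lemma CLE_N_symm (hGAD : GAD_stmt) {n : ℕ} (B : FS n) (x l y : Fin n)
    (h : (x, l, y) ∈ CLE_N B) : (y, l, x) ∈ CLE_N B := by
  rw [CLE_memN] at h ⊢
  exact ⟨⟨h.1.1.symm, h.1.2.2, h.1.2.1⟩, fun hg => h.2 (CLE_good_symm hGAD B y l x hg)⟩

theorem CLE_core (hMXF : MXF_stmt) (hAVZ : AVZ_stmt) (hGAD : GAD_stmt) (k : ℕ)
    (hk : 12003 ≤ k) : CLE_stmt := by
  intro κ hκ
  have h2k : (0 : ℝ) < 2 ^ k := by positivity
  refine ⟨2 / κ, κ ^ 2 / 4 / 2 ^ k, by positivity, ?_⟩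
  intro n D B hB hC hG
  -- the family of forbidden sets
  have hF : ∀ e : Fin n × Fin n × Fin n, ∃ F : Finset (VV n), e ∈ CLE_N B →
      (F.card ≤ 6000 ∧ Sum.inl e.1 ∉ F ∧ Sum.inl e.2.2 ∉ F ∧ Sum.inr e.2.1 ∉ F ∧
        ∀ S, Gad B e.1 e.2.2 S → Sum.inr e.2.1 ∉ S → ¬ Disjoint S F) := by
    rintro ⟨x, l, y⟩
    by_cases he : (x, l, y) ∈ CLE_N B
    · have he' := (CLE_memN B x l y).1 he
      obtain ⟨F, hF⟩ := (hMXF n B x y).2 l he'.1.1 he'.1.2.1 he'.1.2.2 he'.2
      exact ⟨F, fun _ => hF⟩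
    · exact ⟨∅, fun h => absurd h he⟩
  choose F0 hF0 using hF
  obtain ⟨Z, hZ⟩ := hAVZ (Fin n × Fin n × Fin n) (VV n) (CLE_N B)
    (fun e => {Sum.inl e.1, Sum.inr e.2.1, Sum.inl e.2.2})
    (fun e => F0 e ∪ F0 (e.2.2, e.2.1, e.1)) k
    (by
      rintro ⟨x, l, y⟩ he
      have h1 := hF0 _ he
      have h2 := hF0 _ (CLE_N_symm hGAD B x l y he)
      simp only at h1 h2 ⊢
      rw [Finset.disjoint_left]
      intro a ha hb
      simp only [Finset.mem_insert, Finset.mem_singleton] at ha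
      rcases Finset.mem_union.1 hb with hb | hb
      · rcases ha with rfl | rfl | rfl
        · exact h1.2.1 hb
        · exact h1.2.2.2.1 hb
        · exact h1.2.2.1 hb
      · rcases ha with rfl | rfl | rfl
        · exact h2.2.2.1 hb
        · exact h2.2.2.2.1 hb
        · exact h2.2.1 hb)
    (by
      rintro ⟨x, l, y⟩ he
      have h1 := (hF0 _ he).1
      have h2 := (hF0 _ (CLE_N_symm hGAD B x l y he)).1
      have h3 := Finset.card_union_le (F0 (x, l, y)) (F0 (y, l, x))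
      have h4 : ({Sum.inl x, Sum.inr l, Sum.inl y} : Finset (VV n)).card ≤ 3 :=
        Finset.card_le_three
      simp only
      omega)
  refine ⟨(CLE_N B).filter (fun e =>
      ({Sum.inl e.1, Sum.inr e.2.1, Sum.inl e.2.2} : Finset (VV n)) ⊆ Z ∧
      Disjoint (F0 e ∪ F0 (e.2.2, e.2.1, e.1)) Z), ?_, ?_⟩
  · -- clean
    have key : ∀ x l y, (x, l, y) ∈ (CLE_N B).filter (fun e =>
        ({Sum.inl e.1, Sum.inr e.2.1, Sum.inl e.2.2} : Finset (VV n)) ⊆ Z ∧
        Disjoint (F0 e ∪ F0 (e.2.2, e.2.1, e.1)) Z) ↔ (x, l, y) ∈ CLE_N B ∧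
        (Sum.inl x ∈ Z ∧ Sum.inr l ∈ Z ∧ Sum.inl y ∈ Z) ∧ Disjoint (F0 (x, l, y)) Z ∧
        Disjoint (F0 (y, l, x)) Z := by
      intro x l y
      simp only [Finset.mem_filter, Finset.insert_subset_iff, Finset.singleton_subset_iff,
        Finset.disjoint_union_left]
    refine ⟨?_, ?_, ?_, ?_⟩
    · intro x l y h
      exact ((CLE_memN B x l y).1 ((key x l y).1 h).1).1.1
    · intro x l y h
      exact ((CLE_memN B x l y).1 ((key x l y).1 h).1).1.2.1
    · intro x l y h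
      rw [key] at h ⊢
      exact ⟨CLE_N_symm hGAD B x l y h.1, ⟨h.2.1.2.2, h.2.1.2.1, h.2.1.1⟩, h.2.2.2, h.2.2.1⟩
    · intro u w s hi hs hP
      have hP' := fun i j => (key _ _ _).1 (hP i j)
      have hB' := fun i j => ((CLE_memN B _ _ _).1 (hP' i j).1).1
      have hG' : Gad B (w 2) (u 2) (inn u w (fun p : P8 => s p.1)) := by
        refine ⟨u, w, fun p : P8 => s p.1, ⟨hi, ?_, ?_, ?_⟩, rfl, rfl, rfl⟩
        · exact hs.comp Subtype.val_injective
        · intro p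
          exact (hB' p.1.1 p.1.2).2.1
        · intro p
          exact (hB' p.1.1 p.1.2).2.2
      have hl : (Sum.inr (s (2, 2)) : VV n) ∉ inn u w (fun p : P8 => s p.1) := by
        intro h
        simp only [inn, Finset.mem_union, Finset.mem_insert, Finset.mem_singleton,
          Finset.mem_image, Finset.mem_univ, true_and, reduceCtorEq, false_or, Sum.inr.injEq] at h
        obtain ⟨p, hp⟩ := h
        exact p.2 (hs hp)
      have hN := CLE_N_symm hGAD B _ _ _ (hP' 2 2).1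
      have hdis := (hF0 _ hN).2.2.2.2 _ hG' hl
      apply hdis
      have hsub : inn u w (fun p : P8 => s p.1) ⊆ Z := by
        intro a ha
        simp only [inn, Finset.mem_union, Finset.mem_insert, Finset.mem_singleton,
          Finset.mem_image, Finset.mem_univ, true_and] at ha
        rcases ha with (rfl | rfl | rfl | rfl) | ⟨p, rfl⟩
        · exact (hP' 0 0).2.1.1
        · exact (hP' 1 0).2.1.1
        · exact (hP' 0 0).2.1.2.2
        · exact (hP' 0 1).2.1.2.2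
        · exact (hP' p.1.1 p.1.2).2.1.2.1
      exact Finset.disjoint_of_subset_left hsub (hP' 2 2).2.2.2.symm
  · -- size
    have hD := hB.d0
    have hn : (0 : ℝ) < n := by exact_mod_cast hB.n0
    have h1 : 2 ≤ κ * D := by
      have := (div_le_iff₀ hκ).1 hC
      linarith
    have h2 := CLE_card_T B κ D hB
    have h3 : ((CLE_T B).card : ℝ) ≤ (CLE_N B).card + (GoodS B).card := by
      exact_mod_cast CLE_card_N B
    have h4 : κ * n * D * (κ * D - 1) ≤ (B.card : ℝ) * (κ * D - 1) :=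
      mul_le_mul_of_nonneg_right hB.big (by linarith)
    have h5 : κ ^ 2 / 2 * n * D ^ 2 ≤ κ * n * D * (κ * D - 1) := by
      have h0 : 0 ≤ κ * n * D := by positivity
      have := mul_le_mul_of_nonneg_left (show κ * D / 2 ≤ κ * D - 1 by linarith) h0
      calc κ ^ 2 / 2 * n * D ^ 2 = κ * n * D * (κ * D / 2) := by ring
        _ ≤ _ := this
    have h6 : κ ^ 2 / 4 * n * D ^ 2 ≤ ((CLE_N B).card : ℝ) := by
      have : κ ^ 2 / 2 * n * D ^ 2 = κ ^ 2 / 4 * n * D ^ 2 + κ ^ 2 / 4 * n * D ^ 2 := by ring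
      linarith
    have h7 : ((CLE_N B).card : ℝ) ≤ 2 ^ k * (((CLE_N B).filter (fun e =>
        ({Sum.inl e.1, Sum.inr e.2.1, Sum.inl e.2.2} : Finset (VV n)) ⊆ Z ∧
        Disjoint (F0 e ∪ F0 (e.2.2, e.2.1, e.1)) Z)).card : ℝ) := by
      exact_mod_cast hZ
    have h8 : κ ^ 2 / 4 / 2 ^ k * n * D ^ 2 = (κ ^ 2 / 4 * n * D ^ 2) / 2 ^ k := by
      field_simp
    rw [h8, div_le_iff₀ h2k]
    calc κ ^ 2 / 4 * n * D ^ 2 ≤ _ := h6
      _ ≤ _ := h7
      _ = _ := mul_comm _ _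

theorem CLE (hMXF : MXF_stmt) (hAVZ : AVZ_stmt) (hGAD : GAD_stmt) : CLE_stmt :=
  CLE_core hMXF hAVZ hGAD 12003 le_rfl

end Pool.Agent.XT
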