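import Pool.Agent.helper3.XT.Spec

set_option autoImplicit false

namespace Pool.Agent.XT

open Finset SimpleGraph

theorem LMT (hCLE : CLE_stmt) (hRBC : RBC_stmt) (hDNS : DNS_stmt) (hARI : ARI_stmt) :
    LMT_stmt := by
  intro κ hκ
  obtain ⟨C1, k1, hk1, h1⟩ := hCLE κ hκ
  obtain ⟨A, hA, h2⟩ := hDNS κ hκ
  obtain ⟨C2, h3⟩ := hRBC k1 A hk1 hA
  refine ⟨max C2 ((max 1 C1) ^ 13), κ ^ 2 / 4, by positivity, ?_⟩
  intro n D B hB hC
  have hn4 : (0 : ℝ) ≤ (n : ℝ) ^ 4 := by positivity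
  by_cases hG : κ ^ 2 / 4 * n * D ^ 2 ≤ ((GoodS B).card : ℝ)
  · exact Or.inr hG
  · left
    push Not at hG
    have h4 : (max 1 C1) ^ 13 * (n : ℝ) ^ 4 ≤ D ^ 13 :=
      le_trans (mul_le_mul_of_nonneg_right (le_max_right _ _) hn4) hC
    have h5 : C2 * (n : ℝ) ^ 4 ≤ D ^ 13 :=
      le_trans (mul_le_mul_of_nonneg_right (le_max_left _ _) hn4) hC
    have h6 := (hARI (max 1 C1) D n (le_max_left _ _) hB.n0 hB.d0 h4).1
    obtain ⟨P, hP, hPc⟩ := h1 n D B hB (le_trans (le_max_right _ _) h6) hG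
    exact h2 n D B hB (h3 n D B P hB.n0 hB.d0 hB.g8 hP hB.pu hB.lu hPc h5)

end Pool.Agent.XT
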